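import Pool.Agent.H24.CL.Targets

/-!
# Row CI of the board clv_modules: integration over cosets (helper32)
-/

set_option autoImplicit false

open Finset MeasureTheory Pool.Agent.H24.CL

namespace Pool.Agent.H32.CLV

open Classical in
/-- the number of values of `phi q b` on `HF k q k` -/
theorem CI_card (hTO : T_TO) (hKC : T_KC) (k q b : ℕ) (hq : 1 ≤ q) :
    (HF k q k).card = ((HF k q k).image (phi q b)).card * q ^ (KN k) := by
  obtain ⟨hker, hle⟩ := hKC k q b hq
  have hmem : ∀ a : X k, a ∈ HF k q k ↔ a ∈ H k q k := (hTO k q hq).2.1 k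
  set Z : Finset (X k) := (HF k q k).filter fun x => phi q b x = 0 with hZ
  have hZc : Z.card = q ^ (KN k) := by
    rw [← hker]
    have h1 : ((phi q b : X k →+ X k).ker : Set (X k)) = (Z : Set (X k)) := by
      ext x
      simp only [SetLike.mem_coe, AddMonoidHom.mem_ker, hZ, coe_filter, Set.mem_setOf_eq]
      constructor
      · intro hx
        exact ⟨(hmem x).2 (hle (AddMonoidHom.mem_ker.2 hx)), hx⟩
      · exact fun hx => hx.2
    have h2 : Nat.card (phi q b : X k →+ X k).ker =
        ((phi q b : X k →+ X k).ker : Set (X k)).ncard := rfl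
    rw [h2, h1, Set.ncard_coe_finset]
  have hfib : ∀ w ∈ (HF k q k).image (phi q b),
      ((HF k q k).filter fun x => phi q b x = w).card = q ^ (KN k) := by
    intro w hw
    obtain ⟨h0, hh0, rfl⟩ := mem_image.1 hw
    rw [← hZc]
    refine card_bij' (fun x _ => x - h0) (fun x _ => x + h0) ?_ ?_ ?_ ?_
    · intro x hx
      rw [mem_filter] at hx
      rw [hZ, mem_filter, map_sub, hx.2, sub_self]
      exact ⟨(hmem _).2 (sub_mem ((hmem _).1 hx.1) ((hmem _).1 hh0)), rfl⟩
    · intro x hx
      rw [hZ, mem_filter] at hx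
      rw [mem_filter, map_add, hx.2, zero_add]
      exact ⟨(hmem _).2 (add_mem ((hmem _).1 hx.1) ((hmem _).1 hh0)), rfl⟩
    · intro x _
      simp
    · intro x _
      simp
  calc (HF k q k).card
      = ∑ w ∈ (HF k q k).image (phi q b), ((HF k q k).filter fun x => phi q b x = w).card :=
        card_eq_sum_card_fiberwise fun x hx => mem_image_of_mem _ hx
    _ = ∑ _w ∈ (HF k q k).image (phi q b), q ^ (KN k) := sum_congr rfl hfib
    _ = ((HF k q k).image (phi q b)).card * q ^ (KN k) := by rw [sum_const, smul_eq_mul]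

theorem CI_int {k : ℕ} (g : X k → ℝ) (B : ℝ) (hg : Measurable g)
    (hB : ∀ a, 0 ≤ g a ∧ g a ≤ B) : Integrable g := by
  refine Integrable.of_bound hg.aestronglyMeasurable B ?_
  refine Filter.Eventually.of_forall fun a => ?_
  rw [Real.norm_of_nonneg (hB a).1]
  exact (hB a).2

theorem pf_CI (hMP : T_MP) (hTO : T_TO) (hKC : T_KC) : T_CI := by
  classical
  intro k q hq g ψ B hg hψ hgB hψB hyp
  set n : ℕ := (HF k q k).card with hn
  have hn' : n = q ^ (k * k) := (hTO k q hq).2.2.1 k
  have hn0 : (0 : ℝ) < n := by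
    rw [hn']
    have : 0 < q ^ (k * k) := pow_pos hq _
    exact_mod_cast this
  -- the left side
  have hgi : ∀ h : X k, Integrable (fun a => g (a + h)) := fun h =>
    CI_int _ B (hg.comp (measurable_id.add_const h)) fun a => hgB _
  have hL : ∫ a : X k, ∑ h ∈ HF k q k, g (a + h) = n * ∫ a : X k, g a := by
    rw [integral_finsetSum _ fun h _ => hgi h]
    rw [sum_congr rfl fun h _ => integral_add_right_eq_self g h]
    rw [sum_const, nsmul_eq_mul]
  -- the right side
  have himg : ∀ (b : ℕ) (a : X k),
      ∑ v ∈ (HF k q k).image (fun h => phi q b (a + h)), ψ v =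
        ∑ w ∈ (HF k q k).image (phi q b), ψ (phi q b a + w) := by
    intro b a
    have h1 : (HF k q k).image (fun h => phi q b (a + h)) =
        ((HF k q k).image (phi q b)).image (fun w => phi q b a + w) := by
      rw [image_image]
      refine image_congr fun h _ => ?_
      exact map_add (phi q b) a h
    rw [h1, sum_image]
    intro w _ w' _ hww
    exact add_left_cancel hww
  have hψi : ∀ (b : ℕ) (w : X k), Integrable (fun a : X k => ψ (phi q b a + w)) := by
    intro b w
    refine CI_int _ B (hψ.comp ?_) fun a => hψB _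
    exact ((hMP k q b hq).1.measurable).add_const w
  have hψint : ∀ (b : ℕ) (w : X k), ∫ a : X k, ψ (phi q b a + w) = ∫ a : X k, ψ a := by
    intro b w
    have hmp := (hMP k q b hq).2.2
    have h1 : ∫ a : X k, (fun v => ψ (v + w)) (phi q b a) = ∫ v : X k, ψ (v + w) := by
      conv_rhs => rw [← hmp.map_eq]
      rw [integral_map hmp.measurable.aemeasurable]
      exact (hψ.comp (measurable_id.add_const w)).aestronglyMeasurable
    rw [show (∫ a : X k, ψ (phi q b a + w)) = ∫ a : X k, (fun v => ψ (v + w)) (phi q b a) from rfl,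
      h1]
    exact integral_add_right_eq_self ψ w
  have hR : ∫ a : X k, ∑ b ∈ range q, ∑ v ∈ (HF k q k).image (fun h => phi q b (a + h)), ψ v =
      ∑ b ∈ range q, (((HF k q k).image (phi q b)).card : ℝ) * ∫ a : X k, ψ a := by
    have h1 : (fun a : X k => ∑ b ∈ range q,
        ∑ v ∈ (HF k q k).image (fun h => phi q b (a + h)), ψ v) =
        fun a : X k => ∑ b ∈ range q, ∑ w ∈ (HF k q k).image (phi q b), ψ (phi q b a + w) := by
      funext a
      exact sum_congr rfl fun b _ => himg b a
    rw [h1, integral_finsetSum]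
    · refine sum_congr rfl fun b _ => ?_
      rw [integral_finsetSum _ fun w _ => hψi b w]
      rw [sum_congr rfl fun w _ => hψint b w]
      rw [sum_const, nsmul_eq_mul]
    · intro b _
      exact integrable_finset_sum _ fun w _ => hψi b w
  have hRi : Integrable (fun a : X k => ∑ b ∈ range q,
      ∑ v ∈ (HF k q k).image (fun h => phi q b (a + h)), ψ v) := by
    have h1 : (fun a : X k => ∑ b ∈ range q,
        ∑ v ∈ (HF k q k).image (fun h => phi q b (a + h)), ψ v) =
        fun a : X k => ∑ b ∈ range q, ∑ w ∈ (HF k q k).image (phi q b), ψ (phi q b a + w) := by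
      funext a
      exact sum_congr rfl fun b _ => himg b a
    rw [h1]
    exact integrable_finset_sum _ fun b _ => integrable_finset_sum _ fun w _ => hψi b w
  have hmono : (n : ℝ) * ∫ a : X k, g a ≤
      ∑ b ∈ range q, (((HF k q k).image (phi q b)).card : ℝ) * ∫ a : X k, ψ a := by
    rw [← hL, ← hR]
    exact integral_mono (integrable_finset_sum _ fun h _ => hgi h) hRi hyp
  have hcard : ∀ b : ℕ, (q : ℝ) ^ (KN k) * (((HF k q k).image (phi q b)).card : ℝ) = n := by
    intro b
    have := CI_card hTO hKC k q b hq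
    rw [← hn] at this
    have h2 : (n : ℝ) = (((HF k q k).image (phi q b)).card : ℝ) * (q : ℝ) ^ (KN k) := by
      exact_mod_cast this
    rw [h2]; ring
  have hfin : (n : ℝ) * ((q : ℝ) ^ (KN k) * ∫ a, g a) ≤ n * ((q : ℝ) * ∫ a, ψ a) := by
    calc (n : ℝ) * ((q : ℝ) ^ (KN k) * ∫ a, g a)
        = (q : ℝ) ^ (KN k) * ((n : ℝ) * ∫ a, g a) := by ring
      _ ≤ (q : ℝ) ^ (KN k) *
          ∑ b ∈ range q, (((HF k q k).image (phi q b)).card : ℝ) * ∫ a : X k, ψ a :=
          mul_le_mul_of_nonneg_left hmono (by positivity)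
      _ = ∑ b ∈ range q, ((q : ℝ) ^ (KN k) * (((HF k q k).image (phi q b)).card : ℝ)) *
            ∫ a : X k, ψ a := by
          rw [mul_sum]
          exact sum_congr rfl fun b _ => by ring
      _ = ∑ _b ∈ range q, (n : ℝ) * ∫ a : X k, ψ a :=
          sum_congr rfl fun b _ => by rw [hcard b]
      _ = n * ((q : ℝ) * ∫ a, ψ a) := by
          rw [sum_const, card_range, nsmul_eq_mul]; ring
  exact le_of_mul_le_mul_left hfin hn0

end Pool.Agent.H32.CLV
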