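import Pool.Agent.H24.CL.Targets

/-!
# Row O1 of the board clv_modules: the general step (helper32)
-/

set_option autoImplicit false

open Finset MeasureTheory Pool.Agent.H24.CL

namespace Pool.Agent.H32.CLV

theorem O1_fib {α β : Type*} [DecidableEq α] [DecidableEq β] (S : Finset (α × β)) (x y : ℝ)
    (hy0 : 0 ≤ y) (hx : ((S.image Prod.fst).card : ℝ) ≤ x)
    (hy : ∀ a ∈ S.image Prod.fst, (((S.filter fun w => w.1 = a).image Prod.snd).card : ℝ) ≤ y) :
    (S.card : ℝ) ≤ x * y := by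
  have h1 : S.card = ∑ a ∈ S.image Prod.fst, (S.filter fun w => w.1 = a).card :=
    card_eq_sum_card_fiberwise fun w hw => mem_image_of_mem _ hw
  have h2 : ∀ a ∈ S.image Prod.fst, ((S.filter fun w => w.1 = a).card : ℝ) ≤ y := by
    intro a ha
    refine le_trans (le_of_eq ?_) (hy a ha)
    rw [card_image_of_injOn]
    intro w hw w' hw' hww
    rw [mem_coe, mem_filter] at hw hw'
    exact Prod.ext (hw.2.trans hw'.2.symm) hww
  calc (S.card : ℝ) = ∑ a ∈ S.image Prod.fst, ((S.filter fun w => w.1 = a).card : ℝ) := by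
        rw [h1]; push_cast; rfl
    _ ≤ ∑ _a ∈ S.image Prod.fst, y := sum_le_sum h2
    _ = ((S.image Prod.fst).card : ℝ) * y := by rw [sum_const, nsmul_eq_mul]
    _ ≤ x * y := mul_le_mul_of_nonneg_right hx hy0

theorem pf_O1 (hFB : T_FB) : T_O1 := by
  classical
  intro q _ hq A0 A1 kap n F E R S hO
  obtain ⟨hFa, hFb⟩ := hFB q hq A0 A1 kap n F E R S hO
  have hn := hO.hn
  have hF : 0 ≤ F := by linarith [hO.hF]
  have hnpos : 0 < n := by linarith
  set cell : ZMod q → V3 q × V3 q × V3 q → ZMod q × ZMod q × ZMod q :=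
    fun b w => (Zv w.1 b, Zw w.1 b, Zv w.2.1 b + kap b w.1) with hcell
  -- the number of points above one cell
  have key : ∀ (b : ZMod q) (c : ZMod q × ZMod q × ZMod q),
      ((A0.filter fun w => cell b w = c).card : ℝ) ≤
        (4 * (q * min 1 (R / n))) * ((16 * (q * min 1 (E / n)) ^ 2) * F) := by
    intro b c
    have hE0 : 0 ≤ 16 * (q * min 1 (E / n)) ^ 2 := by positivity
    refine O1_fib _ _ _ (mul_nonneg hE0 hF) ?_ ?_
    · refine hFa b c.1 c.2.1 _ ?_
      intro w3 hw3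
      obtain ⟨w, hw, rfl⟩ := mem_image.1 hw3
      rw [mem_filter] at hw
      refine ⟨⟨w.2.1, w.2.2, hw.1⟩, ?_, ?_⟩
      · exact congrArg Prod.fst hw.2
      · exact congrArg (fun z => z.2.1) hw.2
    · intro w3 _
      refine O1_fib _ _ _ hF ?_ ?_
      · refine hFb b c.2.2 w3 _ ?_
        intro w2 hw2
        obtain ⟨w', hw', rfl⟩ := mem_image.1 hw2
        obtain ⟨w, hw, rfl⟩ := mem_image.1 hw'
        rw [mem_filter, mem_filter] at hw
        obtain ⟨⟨hwA, hwc⟩, rfl⟩ := hw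
        exact ⟨⟨w.2.2, hwA⟩, congrArg (fun z => z.2.2) hwc⟩
      · intro w2 _
        refine hO.h1 w3 w2 _ ?_
        intro w1 hw1
        obtain ⟨w', hw', rfl⟩ := mem_image.1 hw1
        obtain ⟨hw'', rfl⟩ := mem_filter.1 hw'
        obtain ⟨w, hw, rfl⟩ := mem_image.1 hw''
        rw [mem_filter, mem_filter] at hw
        obtain ⟨⟨hwA, _⟩, rfl⟩ := hw
        exact hwA
  set K : ℝ := (4 * (q * min 1 (R / n))) * ((16 * (q * min 1 (E / n)) ^ 2) * F) with hK
  -- double counting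
  have h1 : ∀ w ∈ A0, n ≤ (((univ : Finset (ZMod q)).filter fun b => cell b w ∈ A1 b).card : ℝ) := by
    intro w hw
    obtain ⟨D, hD1, hD2⟩ := hO.h0 w hw
    refine hD1.trans ?_
    exact_mod_cast card_le_card fun b hb => mem_filter.2 ⟨mem_univ _, hD2 b hb⟩
  have h2 : n * (A0.card : ℝ) ≤
      ∑ w ∈ A0, (((univ : Finset (ZMod q)).filter fun b => cell b w ∈ A1 b).card : ℝ) := by
    calc n * (A0.card : ℝ) = ∑ _w ∈ A0, n := by rw [sum_const, nsmul_eq_mul]; ring
      _ ≤ _ := sum_le_sum h1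
  have h3 : ∑ w ∈ A0, ((univ : Finset (ZMod q)).filter fun b => cell b w ∈ A1 b).card =
      ∑ b : ZMod q, (A0.filter fun w => cell b w ∈ A1 b).card :=
    sum_card_bipartiteAbove_eq_sum_card_bipartiteBelow
      (s := A0) (t := (univ : Finset (ZMod q))) (fun w b => cell b w ∈ A1 b)
  have h4 : ∀ b : ZMod q, ((A0.filter fun w => cell b w ∈ A1 b).card : ℝ) ≤
      K * ((A1 b).card : ℝ) := by
    intro b
    have h5 : (A0.filter fun w => cell b w ∈ A1 b).card =
        ∑ c ∈ A1 b, ((A0.filter fun w => cell b w ∈ A1 b).filter fun w => cell b w = c).card :=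
      card_eq_sum_card_fiberwise fun w hw => (mem_filter.1 (mem_coe.1 hw)).2
    rw [h5]
    push_cast
    calc ∑ c ∈ A1 b, (((A0.filter fun w => cell b w ∈ A1 b).filter
          fun w => cell b w = c).card : ℝ) ≤ ∑ _c ∈ A1 b, K := by
          refine sum_le_sum fun c _ => ?_
          refine le_trans ?_ (key b c)
          exact_mod_cast card_le_card (filter_subset_filter _ (filter_subset _ _))
      _ = K * ((A1 b).card : ℝ) := by rw [sum_const, nsmul_eq_mul]; ring
  have h6 : ∑ w ∈ A0, (((univ : Finset (ZMod q)).filter fun b => cell b w ∈ A1 b).card : ℝ) =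
      ∑ b : ZMod q, ((A0.filter fun w => cell b w ∈ A1 b).card : ℝ) := by
    exact_mod_cast h3
  calc n * (A0.card : ℝ) ≤ ∑ b : ZMod q, ((A0.filter fun w => cell b w ∈ A1 b).card : ℝ) :=
        h2.trans (le_of_eq h6)
    _ ≤ ∑ b : ZMod q, K * ((A1 b).card : ℝ) := sum_le_sum fun b _ => h4 b
    _ = K * ∑ b, ((A1 b).card : ℝ) := by rw [mul_sum]
    _ = 64 * F * (q * min 1 (E / n)) ^ 2 * (q * min 1 (R / n)) * ∑ b, ((A1 b).card : ℝ) := by
        rw [hK]; ring

end Pool.Agent.H32.CLV
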